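import Pool.Agent.KS6_21.PP.Heis

/-!
# Numbers of distinct products in torsion-free groups and in finite p-groups

The library shows that for all `n` and `1 ≤ k ≤ n!` there are a group `G`, depending on `n` and `k`,
and `n` distinct elements of `G` with exactly `k` distinct products in all orders; there the group
has a cyclic central subgroup of order `k`. Here one group serves for all `n` and `k`, and it can be
chosen countable, torsion-free and nilpotent of class two; and for every prime `p` and every `n` one
finite `p`-group of class two serves for all `k`. The products are the elements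
`x, x z, ..., x z ^ (k - 1)` with a fixed central element `z`. The new step is the combinatorial fact
that for all `1 ≤ k ≤ n!` there are nonnegative integral weights `w i` such that the sums
`c 0 * w 0 + ... + c (n - 1) * w (n - 1)` with `c i ≤ i` are exactly `0, 1, ..., k - 1`.
-/

set_option autoImplicit false

namespace Pool.Agent.Results.MP_71df81_al.TorsionFreeAndPrimePower

open Pool.Agent.KS6_21.PP

/-- (1) There are a countable, torsion-free group `G` with central commutators and a central element
`z` of `G` such that for all `n` and all `1 ≤ k ≤ n!` there are `n` distinct elements of `G` whose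
products in all orders are exactly the `k` distinct elements `x, x z, ..., x z ^ (k - 1)`, for some
`x`. (2) For every prime `p` and every `n` there are a finite `p`-group `G` with central commutators
and a central element `z` of `G` such that the same holds for all `1 ≤ k ≤ n!`. (3) There are
weights whose sums are exactly `0, 1, ..., k - 1`, for all `1 ≤ k ≤ n!`. -/
theorem result :
    (∃ (G : Type) (_ : Group G), Countable G ∧
      (∀ (x : G) (m : ℕ), 0 < m → x ^ m = 1 → x = 1) ∧
      (∀ x y z : G, Commute (x * y * x⁻¹ * y⁻¹) z) ∧
      ∃ z : G, (∀ y, Commute z y) ∧ ∀ n k : ℕ, 1 ≤ k → k ≤ n.factorial →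
        ∃ g : Fin n → G, Function.Injective g ∧
          (∃ x : G, P g = {y | ∃ j < k, y = x * z ^ j}) ∧ (P g).ncard = k) ∧
    (∀ p : ℕ, p.Prime → ∀ n : ℕ, ∃ (G : Type) (_ : Group G), Finite G ∧ IsPGroup p G ∧
      (∀ x y z : G, Commute (x * y * x⁻¹ * y⁻¹) z) ∧
      ∃ z : G, (∀ y, Commute z y) ∧ ∀ k : ℕ, 1 ≤ k → k ≤ n.factorial →
        ∃ g : Fin n → G, Function.Injective g ∧
          (∃ x : G, P g = {y | ∃ j < k, y = x * z ^ j}) ∧ (P g).ncard = k) ∧
    (∀ n k : ℕ, 1 ≤ k → k ≤ n.factorial → ∃ w : Fin n → ℕ,
      {m : ℕ | ∃ c : Fin n → ℕ, (∀ i, c i ≤ i) ∧ m = ∑ i, c i * w i} = {m | m < k}) := by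
  refine ⟨⟨Heis ℕ ℤ, inferInstance, inferInstance, Heis.torsion_free, Heis.commute_commutator,
    Heis.cen, Heis.cen_commute, fun n k h1 h2 => Heis.exists_tuple (Fin.valEmbedding)
    (fun a b _ _ h => by exact_mod_cast h) h1 h2⟩, fun p hp n => ?_, fun n k h1 h2 => ?_⟩
  · have hp1 : 1 < p := hp.one_lt
    have hlt : n.factorial < p ^ n.factorial := Nat.lt_pow_self hp1
    have hne : Fact (1 < p ^ n.factorial) :=
      ⟨Nat.one_lt_pow (Nat.factorial_pos n).ne' hp1⟩
    have hne0 : NeZero (p ^ n.factorial) := ⟨by have := hne.out; omega⟩
    refine ⟨Heis (Fin n) (ZMod (p ^ n.factorial)), inferInstance, inferInstance, Heis.isPGroup,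
      Heis.commute_commutator, Heis.cen, Heis.cen_commute, fun k h1 h2 =>
      Heis.exists_tuple (Function.Embedding.refl _) (fun a b ha hb h => ?_) h1 h2⟩
    have h3 := (ZMod.natCast_eq_natCast_iff' a b _).1 h
    rwa [Nat.mod_eq_of_lt (by omega), Nat.mod_eq_of_lt (by omega)] at h3
  · obtain ⟨w, hw⟩ := sums_eq n k h1 h2
    have key : ∀ n : ℕ, Sums w n =
        {m : ℕ | ∃ c : Fin n → ℕ, (∀ i, c i ≤ i) ∧ m = ∑ i, c i * w i} := by
      intro n
      induction n with
      | zero =>
        ext m
        simp [Sums]
      | succ n ih =>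
        ext m
        rw [Sums, ih]
        constructor
        · rintro ⟨c, hc, s, ⟨d, hd, rfl⟩, rfl⟩
          refine ⟨Fin.snoc (α := fun _ => ℕ) d c, fun i => ?_, ?_⟩
          · induction i using Fin.lastCases with
            | last => simpa using hc
            | cast i => simpa using hd i
          · rw [Fin.sum_univ_castSucc]
            simp [add_comm]
        · rintro ⟨d, hd, rfl⟩
          refine ⟨d (Fin.last n), by simpa using hd (Fin.last n), _,
            ⟨fun i => d i.castSucc, fun i => by simpa using hd i.castSucc, rfl⟩, ?_⟩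
          rw [Fin.sum_univ_castSucc]
          simp [add_comm]
    refine ⟨fun i => w i, ?_⟩
    rw [← hw, key]

end Pool.Agent.Results.MP_71df81_al.TorsionFreeAndPrimePower
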